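import Pool.Agent.H.MP_43bafb_an.A

namespace Pool.Agent.Results.MP_43bafb_an.Yes

open Pool.Agent.H.MP_43bafb_an

theorem result {E : Type*} [NormedAddCommGroup E] [NormedSpace ℝ E] [CompleteSpace E]
    (p : ℝ) (hp : 1 ≤ p) (x : StrongDual ℝ E) :
    IsLUB ((fun f : StrongDual ℝ E → ℝ => |f x|) '' Ball p) ‖x‖ ∧
      ((∃ v : E, ‖v‖ ≤ 1 ∧ x v = ‖x‖) ↔ ∃ f ∈ Ball p, f x = ‖x‖) := by
  refine ⟨hat_norm hp x, ⟨fun ⟨v, hv, h⟩ => ⟨_, delta_mem hp v hv, h⟩, ?_⟩⟩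
  rintro ⟨f, hf, h⟩
  by_cases h0 : x = 0
  · exact ⟨0, by simp, by simp [h0]⟩
  have hn : 0 < ‖x‖ := norm_pos_iff.2 h0
  obtain ⟨v, hv, h1⟩ := attain hp hf (‖x‖⁻¹ • x)
    (by rw [norm_smul, norm_inv, norm_norm, inv_mul_cancel₀ hn.ne'])
    (by rw [hf.1 _ (inv_pos.2 hn).le, h, inv_mul_cancel₀ hn.ne'])
  refine ⟨v, hv, ?_⟩
  rw [smul_apply, smul_eq_mul, ← div_eq_inv_mul, div_eq_one_iff_eq hn.ne'] at h1
  exact h1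

end Pool.Agent.Results.MP_43bafb_an.Yes
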